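import Pool.Agent.Helper99.DF.St

set_option autoImplicit false

namespace Pool.Agent.Helper77.DF

open Pool.Agent.Helper99.DF

theorem aeval_bound (K : IntermediateField ℚ ℝ) (Z : Finset ℕ) (p : MvPolynomial Z K) :
    ∃ B : ℝ, 0 ≤ B ∧ ∀ x : Z → ℝ, (∀ k, 0 ≤ x k ∧ x k ≤ 1) → |MvPolynomial.aeval x p| ≤ B := by
  refine ⟨∑ d ∈ p.support, |algebraMap K ℝ (p.coeff d)|,
    Finset.sum_nonneg (fun _ _ => abs_nonneg _), fun x hx => ?_⟩
  rw [MvPolynomial.aeval_def, MvPolynomial.eval₂_eq']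
  refine (Finset.abs_sum_le_sum_abs _ _).trans (Finset.sum_le_sum fun d _ => ?_)
  rw [abs_mul]
  refine mul_le_of_le_one_right (abs_nonneg _) ?_
  rw [abs_of_nonneg (Finset.prod_nonneg fun i _ => pow_nonneg (hx i).1 _)]
  exact Finset.prod_le_one (fun i _ => pow_nonneg (hx i).1 _)
    (fun i _ => pow_le_one₀ (hx i).1 (hx i).2)

theorem expv_mem {Z : Finset ℕ} {c : ℕ → ℝ} (hc : ∀ k ∈ Z, 0 ≤ c k) (t : ℕ) (k : Z) :
    0 ≤ Real.exp (-(c k * 2 ^ t)) ∧ Real.exp (-(c k * 2 ^ t)) ≤ 1 := by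
  refine ⟨(Real.exp_pos _).le, ?_⟩
  rw [Real.exp_le_one_iff]
  have := mul_nonneg (hc k k.2) (pow_nonneg (by norm_num : (0 : ℝ) ≤ 2) t)
  linarith

theorem hAE1 : StAE1 := by
  intro K Z c M hc hM
  refine ⟨?_, ?_, ?_, ?_⟩
  · rintro f g ⟨p, C, hp⟩ ⟨q, D, hq⟩
    refine ⟨p + q, C + D, fun t => ?_⟩
    rw [map_add]
    have h1 := hp t
    have h2 := hq t
    calc |f t + g t - (MvPolynomial.aeval (fun k : Z => Real.exp (-(c k * 2 ^ t))) p
          + MvPolynomial.aeval (fun k : Z => Real.exp (-(c k * 2 ^ t))) q)|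
        = |(f t - MvPolynomial.aeval (fun k : Z => Real.exp (-(c k * 2 ^ t))) p)
          + (g t - MvPolynomial.aeval (fun k : Z => Real.exp (-(c k * 2 ^ t))) q)| := by
          congr 1; ring
      _ ≤ _ := abs_add_le _ _
      _ ≤ C * Real.exp (-(M * 2 ^ t)) + D * Real.exp (-(M * 2 ^ t)) := add_le_add h1 h2
      _ = (C + D) * Real.exp (-(M * 2 ^ t)) := by ring
  · rintro f g ⟨p, C, hp⟩ ⟨q, D, hq⟩
    obtain ⟨P, hP0, hP⟩ := aeval_bound K Z p
    obtain ⟨Q, hQ0, hQ⟩ := aeval_bound K Z q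
    refine ⟨p * q, (P + |C|) * |D| + |C| * Q, fun t => ?_⟩
    rw [map_mul]
    have h1 := hp t
    have h2 := hq t
    have hP1 := hP _ (expv_mem hc t)
    have hQ1 := hQ _ (expv_mem hc t)
    set u := MvPolynomial.aeval (fun k : Z => Real.exp (-(c k * 2 ^ t))) p
    set v := MvPolynomial.aeval (fun k : Z => Real.exp (-(c k * 2 ^ t))) q
    set E := Real.exp (-(M * 2 ^ t)) with hE
    have hE0 : 0 < E := Real.exp_pos _
    have hE1 : E ≤ 1 := by
      rw [hE, Real.exp_le_one_iff]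
      have := mul_nonneg hM (pow_nonneg (by norm_num : (0 : ℝ) ≤ 2) t)
      linarith
    have h1' : |f t - u| ≤ |C| * E := h1.trans (mul_le_mul_of_nonneg_right (le_abs_self C) hE0.le)
    have h2' : |g t - v| ≤ |D| * E := h2.trans (mul_le_mul_of_nonneg_right (le_abs_self D) hE0.le)
    have h3 : |f t| ≤ P + |C| := by
      have : |f t| ≤ |f t - u| + |u| := by
        have := abs_add_le (f t - u) u
        rwa [sub_add_cancel] at this
      have h4 : |C| * E ≤ |C| := mul_le_of_le_one_right (abs_nonneg _) hE1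
      linarith
    calc |f t * g t - u * v| = |f t * (g t - v) + (f t - u) * v| := by congr 1; ring
      _ ≤ |f t * (g t - v)| + |(f t - u) * v| := abs_add_le _ _
      _ = |f t| * |g t - v| + |f t - u| * |v| := by rw [abs_mul, abs_mul]
      _ ≤ (P + |C|) * (|D| * E) + (|C| * E) * Q := by
          refine add_le_add (mul_le_mul h3 h2' (abs_nonneg _) (by positivity))
            (mul_le_mul h1' hQ1 (abs_nonneg _) (by positivity))
      _ = ((P + |C|) * |D| + |C| * Q) * E := by ring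
  · intro a ha
    refine ⟨MvPolynomial.C ⟨a, ha⟩, 0, fun t => ?_⟩
    rw [MvPolynomial.aeval_C]
    have : (algebraMap K ℝ) ⟨a, ha⟩ = a := rfl
    rw [this]
    simp
  · intro k hk
    refine ⟨MvPolynomial.X ⟨k, hk⟩, 0, fun t => ?_⟩
    rw [MvPolynomial.aeval_X]
    simp

end Pool.Agent.Helper77.DF
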