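import Pool.Agent.Helper99.DF.St

set_option autoImplicit false

namespace Pool.Agent.Helper77.DF

open Pool.Agent.Helper99.DF

theorem hAE2 : StAE2 := by
  rintro K Z c M f ⟨p, C, hp⟩
  refine ⟨MvPolynomial.expand 2 p, C, fun t => ?_⟩
  have h1 := hp (t + 1)
  have h2 : MvPolynomial.aeval (fun k : Z => Real.exp (-(c k * 2 ^ t))) (MvPolynomial.expand 2 p)
      = MvPolynomial.aeval (fun k : Z => Real.exp (-(c k * 2 ^ (t + 1)))) p := by
    rw [MvPolynomial.aeval_expand]
    congr 2
    funext k
    simp only [Pi.pow_apply]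
    rw [← Real.exp_nat_mul]
    congr 1
    push_cast
    ring
  rw [h2]
  refine h1.trans (le_of_eq ?_)
  congr 2
  rw [pow_succ]
  ring

end Pool.Agent.Helper77.DF
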