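import Pool.Agent.Helper99.DF.St

set_option autoImplicit false

namespace Pool.Agent.Helper77.DF

open Pool.Agent.Helper99.DF

theorem hALF (h1 : StALG) : StALF := by
  intro S b al F Z c0 C hD k hk
  by_cases hkY : k ∈ act S \ Z
  · have h0 : 0 ∉ act S \ Z := by
      intro h
      have h2 := (Finset.mem_sdiff.1 h).1
      exact hD.per.1 (mem_act.1 h2).1
    have hk0 : k ≠ 0 := by
      rintro rfl
      exact h0 hkY
    -- the left end
    obtain ⟨l, hlk, hlY, hl⟩ : ∃ l, l < k ∧ l ∉ act S \ Z ∧ ∀ j, l < j → j ≤ k → j ∈ act S \ Z := by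
      classical
      have hex : ∃ n, n ≤ k ∧ k - n ∉ act S \ Z := ⟨k, le_refl k, by simpa using h0⟩
      have hspec := Nat.find_spec hex
      have hmin : ∀ m, m < Nat.find hex → ¬ (m ≤ k ∧ k - m ∉ act S \ Z) := fun m hm =>
        Nat.find_min hex hm
      set n := Nat.find hex with hn
      have hn0 : n ≠ 0 := by
        intro h
        apply hspec.2
        rw [h]
        simpa using hkY
      refine ⟨k - n, by omega, hspec.2, fun j hj1 hj2 => ?_⟩
      have hspec1 := hspec.1
      have := hmin (k - j) (by omega)
      by_contra hcon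
      apply this
      refine ⟨by omega, ?_⟩
      have : k - (k - j) = j := by omega
      rw [this]
      exact hcon
    -- the right end
    obtain ⟨r, hkr, hrY, hr⟩ : ∃ r, k < r ∧ r ∉ act S \ Z ∧ ∀ j, k ≤ j → j < r → j ∈ act S \ Z := by
      classical
      have hex : ∃ n, k + n ∉ act S \ Z := by
        refine ⟨(act S \ Z).sup id + 1, fun h => ?_⟩
        have h2 : (fun x : ℕ => x) (k + ((act S \ Z).sup id + 1)) ≤ (act S \ Z).sup id :=
          Finset.le_sup (f := id) h
        simp only at h2
        omega
      have hspec := Nat.find_spec hex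
      have hmin : ∀ m, m < Nat.find hex → ¬ (k + m ∉ act S \ Z) := fun m hm =>
        Nat.find_min hex hm
      set n := Nat.find hex with hn
      have hn0 : n ≠ 0 := by
        intro h
        apply hspec
        rw [h]
        simpa using hkY
      refine ⟨k + n, by omega, hspec, fun j hj1 hj2 => ?_⟩
      have := hmin (j - k) (by omega)
      have h3 : k + (j - k) = j := by omega
      rw [h3] at this
      exact not_not.1 this
    have hin : ∀ j, l < j → j < r → j ∈ act S \ Z := by
      intro j hj1 hj2
      rcases le_total j k with h | h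
      · exact hl j hj1 h
      · exact hr j h hj2
    have hlS : l ∈ S := by
      have h2 := (Finset.mem_sdiff.1 (hin (l + 1) (by omega) (by omega))).1
      have h3 := (mem_act.1 h2).2.1
      simpa using h3
    have hrS : r ∈ S := by
      have h2 := (Finset.mem_sdiff.1 (hin (r - 1) (by omega) (by omega))).1
      have h3 := (mem_act.1 h2).2.2
      have h4 : r - 1 + 1 = r := by omega
      rw [h4] at h3
      exact h3
    refine h1 l r F (by omega) (hD.FZ l hlS hlY) (hD.FZ r hrS hrY) ?_ ?_ k hlk.le hkr.le
    · intro j hj1 hj2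
      rcases eq_or_lt_of_le hj1 with h | h
      · rw [← h]; exact hD.F1 l hlS
      · rcases eq_or_lt_of_le hj2 with h' | h'
        · rw [h']; exact hD.F1 r hrS
        · exact hD.F1 j (mem_act.1 (Finset.mem_sdiff.1 (hin j h h')).1).1
    · intro j hj1 hj2
      exact hD.FY j (hin j hj1 hj2)
  · rw [hD.FZ k hk hkY]
    exact isAlgebraic_one

end Pool.Agent.Helper77.DF
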