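import Pool.Agent.Helper77.DF.Pr

set_option autoImplicit false

namespace Pool.Agent.Helper77.DF

open Pool.Agent.Helper99.DF Pool.Agent.Helper4.IL Primrec

theorem hPR4 : StPR4 := by
  have h1 : Primrec (fun q : Pol × List ℤ => (q.1.map (fun ce => ce.1 *
      ((List.range ce.2.length).map (fun k => sq q.2 k ^ ex ce.2 k)).prod)).sum) := by
    refine P_isum (Primrec.list_map Primrec.fst ?_)
    refine P_imul (fst.comp snd) (P_iprod (Primrec.list_map (P_rng (P_len (snd.comp snd))) ?_))
    exact P_ipow (P_sq (snd.comp (fst.comp fst)) snd) (P_ex (snd.comp (snd.comp fst)) snd)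
  exact h1.of_eq fun q => by simp [evB]

end Pool.Agent.Helper77.DF
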