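import Pool.Agent.Helper77.DF.Pr

set_option autoImplicit false

namespace Pool.Agent.Helper77.DF

open Pool.Agent.Helper99.DF Pool.Agent.Helper4.IL Primrec

theorem PR5a : PrimrecPred (fun l : List ℤ => okS l) := by
  have hk : ∀ (f : ℕ × List ℤ → ℕ), Primrec f → Primrec (fun q : ℕ × List ℤ => sq q.2 (f q)) :=
    fun f hf => P_sq snd hf
  show PrimrecPred (fun l : List ℤ => sq l 0 = 0 ∧ ∀ k ∈ List.range l.length,
    0 ≤ sq l k ∧ (sq l k = 0 → sq l (k - 1) * sq l (k + 1) = 0))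
  refine (P_ieq (P_sq Primrec.id (Primrec.const 0)) (Primrec.const 0)).and
    (P_all (P_rng (P_len Primrec.id)) ?_)
  show PrimrecPred (fun q : ℕ × List ℤ => 0 ≤ sq q.2 q.1 ∧ (sq q.2 q.1 = 0 →
    sq q.2 (q.1 - 1) * sq q.2 (q.1 + 1) = 0))
  exact (P_ile (Primrec.const 0) (hk _ fst)).and (P_imp (P_ieq (hk _ fst) (Primrec.const 0))
    (P_ieq (P_imul (hk _ (P_nsub fst (Primrec.const 1))) (hk _ (P_nadd fst (Primrec.const 1))))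
      (Primrec.const 0)))

theorem PR5b : PrimrecPred (fun q : List ℤ × (List ℕ × List Ent) => okC q.1 q.2.1 q.2.2) := by
  show PrimrecPred (fun q : List ℤ × (List ℕ × List Ent) => ∀ k ∈ List.range q.1.length,
    (∃ z ∈ q.2.1, z = k) ∨ (∃ en ∈ q.2.2, en.1 = k) ∨ sq q.1 (k - 1) * sq q.1 (k + 1) = 0)
  refine P_all (P_rng (P_len fst)) ?_
  show PrimrecPred (fun p : ℕ × (List ℤ × (List ℕ × List Ent)) => (∃ z ∈ p.2.2.1, z = p.1) ∨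
    (∃ en ∈ p.2.2.2, en.1 = p.1) ∨ sq p.2.1 (p.1 - 1) * sq p.2.1 (p.1 + 1) = 0)
  refine PrimrecPred.or (P_exi (fst.comp (snd.comp snd)) ?_)
    (PrimrecPred.or (P_exi (snd.comp (snd.comp snd)) ?_) ?_)
  · exact P_neq fst (fst.comp snd)
  · exact P_neq (fst.comp fst) (fst.comp snd)
  · exact P_ieq (P_imul (P_sq (fst.comp snd) (P_nsub fst (Primrec.const 1)))
      (P_sq (fst.comp snd) (P_nadd fst (Primrec.const 1)))) (Primrec.const 0)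

theorem PR5c : PrimrecPred (fun q : List ℤ × (ℕ × ℕ) × List ℕ =>
    okZ q.1 q.2.1.1 q.2.1.2 q.2.2) := by
  show PrimrecPred (fun q : List ℤ × (ℕ × ℕ) × List ℕ =>
    ∀ k ∈ q.2.2, k < q.1.length ∧ 0 < sq q.1 (k - 1) * sq q.1 (k + 1) ∧
    (q.2.1.1 : ℤ) * (sq q.1 (k - 1) * sq q.1 (k + 1)) ≤ q.2.1.2 * sq q.1 k ^ 2)
  refine P_all (snd.comp snd) ?_
  show PrimrecPred (fun p : ℕ × (List ℤ × (ℕ × ℕ) × List ℕ) => p.1 < p.2.1.length ∧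
    0 < sq p.2.1 (p.1 - 1) * sq p.2.1 (p.1 + 1) ∧
    (p.2.2.1.1 : ℤ) * (sq p.2.1 (p.1 - 1) * sq p.2.1 (p.1 + 1)) ≤ p.2.2.1.2 * sq p.2.1 p.1 ^ 2)
  have hp : Primrec (fun p : ℕ × (List ℤ × (ℕ × ℕ) × List ℕ) =>
      sq p.2.1 (p.1 - 1) * sq p.2.1 (p.1 + 1)) :=
    P_imul (P_sq (fst.comp snd) (P_nsub fst (Primrec.const 1)))
      (P_sq (fst.comp snd) (P_nadd fst (Primrec.const 1)))
  refine (P_nlt fst (P_len (fst.comp snd))).and ((P_ilt (Primrec.const 0) hp).and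
    (P_ile (P_imul (P_cast (fst.comp (fst.comp (snd.comp snd)))) hp)
      (P_imul (P_cast (snd.comp (fst.comp (snd.comp snd))))
        (P_ipow (P_sq (fst.comp snd) fst) (Primrec.const 2)))))

theorem PR5d : PrimrecPred (fun q : List ℤ × ℕ × (List ℕ × List ℕ) × List Ent =>
    okY q.1 q.2.1 q.2.2.1.1 q.2.2.1.2 q.2.2.2) := by
  show PrimrecPred (fun q : List ℤ × ℕ × (List ℕ × List ℕ) × List Ent =>
    ∀ en ∈ q.2.2.2, en.1 < q.1.length ∧ 0 < sq q.1 (en.1 - 1) * sq q.1 (en.1 + 1) ∧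
    (ex q.2.2.1.1 en.1 : ℤ) * sq q.1 en.1 ^ 2 ≤ q.2.1 * (sq q.1 (en.1 - 1) * sq q.1 (en.1 + 1)) ∧
    (q.2.1 : ℤ) * (sq q.1 (en.1 - 1) * sq q.1 (en.1 + 1)) ≤ ex q.2.2.1.2 en.1 * sq q.1 en.1 ^ 2)
  refine P_all (snd.comp (snd.comp snd)) ?_
  show PrimrecPred (fun p : Ent × (List ℤ × ℕ × (List ℕ × List ℕ) × List Ent) =>
    p.1.1 < p.2.1.length ∧ 0 < sq p.2.1 (p.1.1 - 1) * sq p.2.1 (p.1.1 + 1) ∧
    (ex p.2.2.2.1.1 p.1.1 : ℤ) * sq p.2.1 p.1.1 ^ 2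
      ≤ p.2.2.1 * (sq p.2.1 (p.1.1 - 1) * sq p.2.1 (p.1.1 + 1)) ∧
    (p.2.2.1 : ℤ) * (sq p.2.1 (p.1.1 - 1) * sq p.2.1 (p.1.1 + 1))
      ≤ ex p.2.2.2.1.2 p.1.1 * sq p.2.1 p.1.1 ^ 2)
  have he : Primrec (fun p : Ent × (List ℤ × ℕ × (List ℕ × List ℕ) × List Ent) => p.1.1) :=
    fst.comp fst
  have hp : Primrec (fun p : Ent × (List ℤ × ℕ × (List ℕ × List ℕ) × List Ent) =>
      sq p.2.1 (p.1.1 - 1) * sq p.2.1 (p.1.1 + 1)) :=
    P_imul (P_sq (fst.comp snd) (P_nsub he (Primrec.const 1)))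
      (P_sq (fst.comp snd) (P_nadd he (Primrec.const 1)))
  have h2 : Primrec (fun p : Ent × (List ℤ × ℕ × (List ℕ × List ℕ) × List Ent) =>
      sq p.2.1 p.1.1 ^ 2) := P_ipow (P_sq (fst.comp snd) he) (Primrec.const 2)
  have hD : Primrec (fun p : Ent × (List ℤ × ℕ × (List ℕ × List ℕ) × List Ent) =>
      (p.2.2.1 : ℤ)) := P_cast (fst.comp (snd.comp snd))
  have hlo : Primrec (fun p : Ent × (List ℤ × ℕ × (List ℕ × List ℕ) × List Ent) =>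
      (ex p.2.2.2.1.1 p.1.1 : ℤ)) :=
    P_cast (P_ex (fst.comp (fst.comp (snd.comp (snd.comp snd)))) he)
  have hhi : Primrec (fun p : Ent × (List ℤ × ℕ × (List ℕ × List ℕ) × List Ent) =>
      (ex p.2.2.2.1.2 p.1.1 : ℤ)) :=
    P_cast (P_ex (snd.comp (fst.comp (snd.comp (snd.comp snd)))) he)
  exact (P_nlt he (P_len (fst.comp snd))).and ((P_ilt (Primrec.const 0) hp).and
    ((P_ile (P_imul hlo h2) (P_imul hD hp)).and (P_ile (P_imul hD hp) (P_imul hhi h2))))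

theorem hPR5 : StPR5 := ⟨PR5a, PR5b, PR5c, PR5d⟩

end Pool.Agent.Helper77.DF
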