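import Pool.Agent.Helper77.DF.Pr

set_option autoImplicit false

namespace Pool.Agent.Helper77.DF

open Pool.Agent.Helper99.DF Pool.Agent.Helper4.IL Primrec

section

variable {α : Type} [Primcodable α]

theorem PR6a {n D e0 Cc : α → ℕ} {Zs lo hi : α → List ℕ} {ents : α → List Ent}
    (hn : Primrec n) (hD : Primrec D) (he : Primrec e0) (hC : Primrec Cc) (hZ : Primrec Zs)
    (hlo : Primrec lo) (hhi : Primrec hi) (hen : Primrec ents) :
    PrimrecPred fun a => okB (n a) (D a) (e0 a) (Cc a) (Zs a) (lo a) (hi a) (ents a) := by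
  unfold okB
  refine PrimrecPred.and (P_all (P_rng hn) ?_) (PrimrecPred.and (P_all (P_rng hn) ?_)
    (PrimrecPred.and (P_all (P_rng hn) ?_) (P_all hen ?_)))
  · have h1 : Primrec (fun p : ℕ × α => ex (hi p.2) p.1) := P_ex (hhi.comp snd) fst
    have h2 : Primrec (fun p : ℕ × α => D p.2) := hD.comp snd
    exact (P_nlt h1 h2).and (P_nle (P_npow h2 (Primrec.const 2))
      (P_nmul (hC.comp snd) (P_npow (P_nsub h2 h1) (Primrec.const 2))))
  · have h1 : Primrec (fun p : ℕ × α => ex (hi p.2) p.1) := P_ex (hhi.comp snd) fst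
    have h2 : Primrec (fun p : ℕ × α => ex (lo p.2) p.1) := P_ex (hlo.comp snd) fst
    refine P_imp (P_exi (hZ.comp snd) ?_) ((P_neq h2 (Primrec.const 0)).and
      (P_neq h1 (he.comp snd)))
    exact P_neq fst (fst.comp snd)
  · have h1 : Primrec (fun p : ℕ × α => ex (hi p.2) p.1) := P_ex (hhi.comp snd) fst
    have h2 : Primrec (fun p : ℕ × α => ex (lo p.2) p.1) := P_ex (hlo.comp snd) fst
    refine PrimrecPred.or (PrimrecPred.or (P_exi (hZ.comp snd) ?_) (P_exi (hen.comp snd) ?_))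
      ((P_neq h2 (Primrec.const 0)).and (P_neq h1 (Primrec.const 0)))
    · exact P_neq fst (fst.comp snd)
    · exact P_neq (fst.comp fst) (fst.comp snd)
  · have h0 : Primrec (fun p : Ent × α => p.1.1) := fst.comp fst
    have h1 : Primrec (fun p : Ent × α => ex (hi p.2) p.1.1) := P_ex (hhi.comp snd) h0
    have h2 : Primrec (fun p : Ent × α => ex (lo p.2) p.1.1) := P_ex (hlo.comp snd) h0
    refine PrimrecPred.and (PrimrecPred.not (P_exi (hZ.comp snd) ?_))
      ((P_nlt (Primrec.const 0) h2).and (P_nle h2 h1))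
    exact P_neq fst (fst.comp (fst.comp snd))

theorem PR6b {D : α → ℕ} {lo hi lo2 hi2 : α → List ℕ} {ents : α → List Ent}
    (hD : Primrec D) (hlo : Primrec lo) (hhi : Primrec hi) (hlo2 : Primrec lo2)
    (hhi2 : Primrec hi2) (hen : Primrec ents) :
    PrimrecPred fun a => okO (D a) (lo a) (hi a) (lo2 a) (hi2 a) (ents a) := by
  unfold okO
  refine P_all hen ?_
  have h0 : Primrec (fun p : Ent × α => p.1.1) := fst.comp fst
  have hm : Primrec (fun p : Ent × α => p.1.1 - 1) := P_nsub h0 (Primrec.const 1)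
  have hp : Primrec (fun p : Ent × α => p.1.1 + 1) := P_nadd h0 (Primrec.const 1)
  have d : Primrec (fun p : Ent × α => D p.2) := hD.comp snd
  have e1 : Primrec (fun p : Ent × α => ex (lo p.2) p.1.1) := P_ex (hlo.comp snd) h0
  have e2 : Primrec (fun p : Ent × α => ex (hi p.2) p.1.1) := P_ex (hhi.comp snd) h0
  have e3 : Primrec (fun p : Ent × α => ex (lo2 p.2) p.1.1) := P_ex (hlo2.comp snd) h0
  have e4 : Primrec (fun p : Ent × α => ex (hi2 p.2) p.1.1) := P_ex (hhi2.comp snd) h0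
  have e5 : Primrec (fun p : Ent × α => ex (hi p.2) (p.1.1 - 1)) := P_ex (hhi.comp snd) hm
  have e6 : Primrec (fun p : Ent × α => ex (hi p.2) (p.1.1 + 1)) := P_ex (hhi.comp snd) hp
  have e7 : Primrec (fun p : Ent × α => ex (lo p.2) (p.1.1 - 1)) := P_ex (hlo.comp snd) hm
  have e8 : Primrec (fun p : Ent × α => ex (lo p.2) (p.1.1 + 1)) := P_ex (hlo.comp snd) hp
  refine PrimrecPred.and (P_nle (P_nmul (P_nmul e3 d) (P_npow (P_nsub d e1) (Primrec.const 2)))
    (P_nmul (P_npow e1 (Primrec.const 2)) (P_nmul (P_nsub d e5) (P_nsub d e6))))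
    (PrimrecPred.and (P_nle (P_nmul (P_npow e2 (Primrec.const 2))
      (P_nmul (P_nsub d e7) (P_nsub d e8)))
      (P_nmul (P_nmul e4 d) (P_npow (P_nsub d e2) (Primrec.const 2)))) (P_nle e4 d))

theorem PR6c {D e0 N Cc Mg : α → ℕ} {Zs : α → List ℕ}
    (hD : Primrec D) (he : Primrec e0) (hN : Primrec N) (hC : Primrec Cc) (hM : Primrec Mg)
    (hZ : Primrec Zs) :
    PrimrecPred fun a => okD (D a) (e0 a) (N a) (Cc a) (Mg a) (Zs a) := by
  unfold okD
  exact (P_nlt (Primrec.const 0) hD).and ((P_nlt (Primrec.const 0) hM).and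
    (P_nle (P_nmul he (P_npow hC (P_nadd (P_nmul (P_nmul (Primrec.const 2) hN) (P_len hZ))
      (Primrec.const 1)))) hD))

end

theorem hPR6 : StPR6 := by
  refine ⟨?_, ?_, ?_⟩
  · exact PR6a (fst.comp fst) (fst.comp (snd.comp fst)) (fst.comp (snd.comp (snd.comp fst)))
      (snd.comp (snd.comp (snd.comp fst))) (fst.comp (fst.comp snd))
      (fst.comp (snd.comp (fst.comp snd))) (snd.comp (snd.comp (fst.comp snd))) (snd.comp snd)
  · exact PR6b fst (fst.comp (fst.comp snd)) (fst.comp (snd.comp (fst.comp snd)))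
      (fst.comp (snd.comp (snd.comp (fst.comp snd))))
      (snd.comp (snd.comp (snd.comp (fst.comp snd)))) (snd.comp snd)
  · exact PR6c (fst.comp fst) (fst.comp (snd.comp fst)) (snd.comp (snd.comp fst))
      (fst.comp (fst.comp snd)) (snd.comp (fst.comp snd)) (snd.comp snd)

end Pool.Agent.Helper77.DF
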