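import Pool.Agent.Helper99.DF.St

set_option autoImplicit false

namespace Pool.Agent.Helper77.DF

open Pool.Agent.Helper99.DF Pool.Agent.Helper4.IL

section

variable {α β σ : Type} [Primcodable α] [Primcodable β] [Primcodable σ]

theorem P_all {L : α → List β} {R : β → α → Prop} (hL : Primrec L) (hR : PrimrecRel R) :
    PrimrecPred fun a => ∀ b ∈ L a, R b a :=
  (PrimrecRel.forall_mem_list hR).comp hL Primrec.id

theorem P_exi {L : α → List β} {R : β → α → Prop} (hL : Primrec L) (hR : PrimrecRel R) :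
    PrimrecPred fun a => ∃ b ∈ L a, R b a :=
  (PrimrecRel.exists_mem_list hR).comp hL Primrec.id

theorem P_imp {p q : α → Prop} (hp : PrimrecPred p) (hq : PrimrecPred q) :
    PrimrecPred fun a => p a → q a :=
  (hp.not.or hq).of_eq fun a => by tauto

theorem P_ile {f g : α → ℤ} (hf : Primrec f) (hg : Primrec g) :
    PrimrecPred fun a => f a ≤ g a := by
  refine (Primrec.eq.comp (primrec_int_toNat.comp (primrec_int_sub.comp hf hg))
    (Primrec.const 0)).of_eq fun a => ?_
  omega

theorem P_ilt {f g : α → ℤ} (hf : Primrec f) (hg : Primrec g) :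
    PrimrecPred fun a => f a < g a :=
  (P_ile hg hf).not.of_eq fun a => by simp

theorem P_ieq {f g : α → ℤ} (hf : Primrec f) (hg : Primrec g) :
    PrimrecPred fun a => f a = g a := Primrec.eq.comp hf hg

theorem P_neq {f g : α → ℕ} (hf : Primrec f) (hg : Primrec g) :
    PrimrecPred fun a => f a = g a := Primrec.eq.comp hf hg

theorem P_nle {f g : α → ℕ} (hf : Primrec f) (hg : Primrec g) :
    PrimrecPred fun a => f a ≤ g a := Primrec.nat_le.comp hf hg

theorem P_nlt {f g : α → ℕ} (hf : Primrec f) (hg : Primrec g) :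
    PrimrecPred fun a => f a < g a := Primrec.nat_lt.comp hf hg

theorem P_cast {f : α → ℕ} (hf : Primrec f) : Primrec fun a => (f a : ℤ) :=
  primrec_int_ofNat.comp hf

theorem P_iadd {f g : α → ℤ} (hf : Primrec f) (hg : Primrec g) : Primrec fun a => f a + g a :=
  primrec_int_add.comp hf hg

theorem P_imul {f g : α → ℤ} (hf : Primrec f) (hg : Primrec g) : Primrec fun a => f a * g a :=
  primrec_int_mul.comp hf hg

theorem P_nadd {f g : α → ℕ} (hf : Primrec f) (hg : Primrec g) : Primrec fun a => f a + g a :=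
  Primrec.nat_add.comp hf hg

theorem P_nmul {f g : α → ℕ} (hf : Primrec f) (hg : Primrec g) : Primrec fun a => f a * g a :=
  Primrec.nat_mul.comp hf hg

theorem P_nsub {f g : α → ℕ} (hf : Primrec f) (hg : Primrec g) : Primrec fun a => f a - g a :=
  Primrec.nat_sub.comp hf hg

theorem P_ipow {f : α → ℤ} {g : α → ℕ} (hf : Primrec f) (hg : Primrec g) :
    Primrec fun a => f a ^ g a := by
  have h : Primrec₂ (fun (a : α) (p : ℕ × ℤ) => p.2 * f a) :=
    P_imul (Primrec.snd.comp Primrec.snd) (hf.comp Primrec.fst)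
  refine (Primrec.nat_rec' hg (Primrec.const (1 : ℤ)) h).of_eq fun a => ?_
  induction g a with
  | zero => simp
  | succ n ih => simp only at ih ⊢; rw [ih, pow_succ]

theorem P_npow {f : α → ℕ} {g : α → ℕ} (hf : Primrec f) (hg : Primrec g) :
    Primrec fun a => f a ^ g a := by
  have h : Primrec₂ (fun (a : α) (p : ℕ × ℕ) => p.2 * f a) :=
    P_nmul (Primrec.snd.comp Primrec.snd) (hf.comp Primrec.fst)
  refine (Primrec.nat_rec' hg (Primrec.const (1 : ℕ)) h).of_eq fun a => ?_
  induction g a with
  | zero => simp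
  | succ n ih => simp only at ih ⊢; rw [ih, pow_succ]

theorem P_ex {f : α → List ℕ} {g : α → ℕ} (hf : Primrec f) (hg : Primrec g) :
    Primrec fun a => ex (f a) (g a) := (Primrec.list_getD 0).comp hf hg

theorem P_sq {f : α → List ℤ} {g : α → ℕ} (hf : Primrec f) (hg : Primrec g) :
    Primrec fun a => sq (f a) (g a) := (Primrec.list_getD 0).comp hf hg

theorem P_isum {f : α → List ℤ} (hf : Primrec f) : Primrec fun a => (f a).sum := by
  have h : Primrec₂ (fun (_ : α) (p : ℤ × ℤ) => p.1 + p.2) :=
    P_iadd (Primrec.fst.comp Primrec.snd) (Primrec.snd.comp Primrec.snd)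
  refine (Primrec.list_foldr hf (Primrec.const (0 : ℤ)) h).of_eq fun a => ?_
  rw [List.sum_eq_foldr]

theorem P_iprod {f : α → List ℤ} (hf : Primrec f) : Primrec fun a => (f a).prod := by
  have h : Primrec₂ (fun (_ : α) (p : ℤ × ℤ) => p.1 * p.2) :=
    P_imul (Primrec.fst.comp Primrec.snd) (Primrec.snd.comp Primrec.snd)
  refine (Primrec.list_foldr hf (Primrec.const (1 : ℤ)) h).of_eq fun a => ?_
  rw [List.prod_eq_foldr]

theorem P_nsum {f : α → List ℕ} (hf : Primrec f) : Primrec fun a => (f a).sum := by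
  have h : Primrec₂ (fun (_ : α) (p : ℕ × ℕ) => p.1 + p.2) :=
    P_nadd (Primrec.fst.comp Primrec.snd) (Primrec.snd.comp Primrec.snd)
  refine (Primrec.list_foldr hf (Primrec.const (0 : ℕ)) h).of_eq fun a => ?_
  rw [List.sum_eq_foldr]

theorem P_len {f : α → List β} (hf : Primrec f) : Primrec fun a => (f a).length :=
  Primrec.list_length.comp hf

theorem P_rng {f : α → ℕ} (hf : Primrec f) : Primrec fun a => List.range (f a) :=
  Primrec.list_range.comp hf

end

end Pool.Agent.Helper77.DF
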